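import Pool.Agent.H560R2.Sum5
import Pool.Agent.H560R2.Mat7
import Pool.Agent.H560R2.Mat6

/-!
# Linear feasibility is hard on average for real programs with few non-monotone steps
-/

set_option autoImplicit false

namespace Pool.Agent.N625.LP

open Finset Pool.Agent.H560R2

variable {n : ℕ}

open Classical in
/-- the pairs which are not covered -/
noncomputable def cov (W : Finset (Fin n ⊕ Fin n)) : Finset (Fin n × Fin n) :=
  univ.filter fun e => Sum.inl e.1 ∉ W ∧ Sum.inr e.2 ∉ W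

open Classical in
/-- the pairs which are not in the permutation -/
noncomputable def off (σ : Equiv.Perm (Fin n)) : Finset (Fin n × Fin n) :=
  univ.filter fun e => σ e.1 ≠ e.2

lemma coe_cov (W : Finset (Fin n ⊕ Fin n)) :
    (cov W : Set (Fin n × Fin n)) = {e | Sum.inl e.1 ∈ W ∨ Sum.inr e.2 ∈ W}ᶜ := by
  ext e
  simp [cov]

lemma coe_off (σ : Equiv.Perm (Fin n)) :
    (off σ : Set (Fin n × Fin n)) = {e | σ e.1 = e.2}ᶜ := by
  ext e
  simp [off]

open Classical in
/-- One block is hard on average. -/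
theorem block (w lam c : ℕ) (hw : 1 ≤ w) (hc : 1 ≤ c) (hn : n < 2 ^ lam)
    (hbig : 2 ^ 59 * (lam + 1) ^ 8 * w ^ 8 * c ≤ n) :
    ∃ (Pt : Type) (_ : Fintype Pt) (_ : Nonempty Pt) (W : Pt → Finset (Fin n ⊕ Fin n)),
      (∀ p, (W p).card < n) ∧ ∀ S : ℕ, 8 * c * S ≤ 2 ^ w →
        BlockHard (V := Fin n × Fin n) (P := Pt) (N := Equiv.Perm (Fin n)) S (1 / (2 * c))
          (fun p => cov (W p)) off := by
  obtain ⟨Pt, i1, i2, W, hW, H⟩ := match_avg (n := n) w lam c hw hc hn hbig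
  refine ⟨Pt, i1, i2, W, hW, ?_⟩
  intro S hS B hB L hL hLS g hg τ
  have hP : (0 : ℝ) < Fintype.card Pt := by exact_mod_cast Fintype.card_pos
  have hN : (0 : ℝ) < Fintype.card (Equiv.Perm (Fin n)) := by exact_mod_cast Fintype.card_pos
  have hcR : (0 : ℝ) < c := by exact_mod_cast hc
  by_cases hne : ∃ Z : Set (Fin n × Fin n), g Zᶜ < τ
  swap
  · push Not at hne
    have h1 : (univ.filter (fun σ : Equiv.Perm (Fin n) =>
        τ ≤ g (off σ : Set (Fin n × Fin n)))) = univ := by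
      refine Finset.filter_true_of_mem fun σ _ => ?_
      rw [coe_off]
      exact hne _
    rw [h1, Finset.card_univ, div_self hN.ne']
    have h2 : ((univ.filter (fun p : Pt =>
        τ ≤ g (cov (W p) : Set (Fin n × Fin n)))).card : ℝ) / Fintype.card Pt ≤ 1 := by
      rw [div_le_one hP]
      exact_mod_cast (Finset.card_filter_le _ _).trans (by rw [Finset.card_univ])
    have h3 : (0 : ℝ) ≤ 1 / (2 * c) := by positivity
    linarith
  obtain ⟨Z1, hZ1⟩ := hne
  obtain ⟨Z0, hZ0, hmax⟩ := Finset.exists_max_image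
    (univ.filter fun Z : Set (Fin n × Fin n) => g Zᶜ < τ) (fun Z => g Zᶜ)
    ⟨Z1, Finset.mem_filter.2 ⟨Finset.mem_univ _, hZ1⟩⟩
  rw [Finset.mem_filter] at hZ0
  have hiff : ∀ Z : Set (Fin n × Fin n), - g Z0ᶜ ≤ - g Zᶜ ↔ ¬ τ ≤ g Zᶜ := by
    intro Z
    rw [not_le, neg_le_neg_iff]
    constructor
    · intro h
      exact lt_of_le_of_lt h hZ0.2
    · intro h
      exact hmax Z (Finset.mem_filter.2 ⟨Finset.mem_univ _, h⟩)
  have h1 := H {g | ∃ b ∈ B, g = fun Z => - b Zᶜ} (by
    rintro _ ⟨b, hb, rfl⟩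
    rcases hB b hb with ⟨k, rfl⟩ | ⟨v, k, k', hk, h1, h2⟩
    · exact ⟨∅, by simp, fun x x' _ => le_rfl⟩
    · refine ⟨{v}, by simp, fun x x' h => ?_⟩
      apply neg_le_neg
      by_cases hv : v ∈ x
      · have hv' : v ∈ x' := h v (by simp) hv
        rw [h2 xᶜ (fun h => h hv), h2 x'ᶜ (fun h => h hv')]
      · rw [h1 xᶜ hv]
        by_cases hv' : v ∈ x'
        · rw [h2 x'ᶜ (fun h => h hv')]
          exact hk
        · rw [h1 x'ᶜ hv']) _ hL.dual (fun Z => - g Zᶜ) (by
      rcases hg with h | h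
      · exact Or.inl ⟨g, h, rfl⟩
      · exact Or.inr (List.mem_map.mpr ⟨g, h, rfl⟩)) (- g Z0ᶜ) (by
      rw [List.length_map]
      exact (Nat.mul_le_mul_left _ hLS).trans hS)
  have e1 : (univ.filter (fun σ : Equiv.Perm (Fin n) =>
      - g Z0ᶜ ≤ (fun Z : Set (Fin n × Fin n) => - g Zᶜ) {e | σ e.1 = e.2})).card =
      Fintype.card (Equiv.Perm (Fin n)) - (univ.filter (fun σ : Equiv.Perm (Fin n) =>
        τ ≤ g (off σ : Set (Fin n × Fin n)))).card := by
    have h2 := Finset.card_filter_add_card_filter_not (s := (univ : Finset (Equiv.Perm (Fin n))))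
      (fun σ => τ ≤ g (off σ : Set (Fin n × Fin n)))
    rw [Finset.card_univ] at h2
    have h3 : (univ.filter (fun σ : Equiv.Perm (Fin n) =>
        - g Z0ᶜ ≤ (fun Z : Set (Fin n × Fin n) => - g Zᶜ) {e | σ e.1 = e.2})) =
        (univ.filter (fun σ : Equiv.Perm (Fin n) => ¬ τ ≤ g (off σ : Set (Fin n × Fin n)))) := by
      refine Finset.filter_congr fun σ _ => ?_
      rw [coe_off]
      exact hiff _
    rw [h3]
    omega
  have e2 : (univ.filter (fun p : Pt =>
      - g Z0ᶜ ≤ (fun Z : Set (Fin n × Fin n) => - g Zᶜ)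
        {e | Sum.inl e.1 ∈ W p ∨ Sum.inr e.2 ∈ W p})).card =
      Fintype.card Pt - (univ.filter (fun p : Pt =>
        τ ≤ g (cov (W p) : Set (Fin n × Fin n)))).card := by
    have h2 := Finset.card_filter_add_card_filter_not (s := (univ : Finset Pt))
      (fun p => τ ≤ g (cov (W p) : Set (Fin n × Fin n)))
    rw [Finset.card_univ] at h2
    have h3 : (univ.filter (fun p : Pt =>
        - g Z0ᶜ ≤ (fun Z : Set (Fin n × Fin n) => - g Zᶜ)
          {e | Sum.inl e.1 ∈ W p ∨ Sum.inr e.2 ∈ W p})) =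
        (univ.filter (fun p : Pt => ¬ τ ≤ g (cov (W p) : Set (Fin n × Fin n)))) := by
      refine Finset.filter_congr fun p _ => ?_
      rw [coe_cov]
      exact hiff _
    rw [h3]
    omega
  rw [e1, e2] at h1
  set a := (univ.filter (fun σ : Equiv.Perm (Fin n) =>
        τ ≤ g (off σ : Set (Fin n × Fin n)))).card with ha
  set b := (univ.filter (fun p : Pt =>
        τ ≤ g (cov (W p) : Set (Fin n × Fin n)))).card with hb
  have ha1 : a ≤ Fintype.card (Equiv.Perm (Fin n)) := by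
    rw [ha, ← Finset.card_univ]; exact Finset.card_filter_le _ _
  have hb1 : b ≤ Fintype.card Pt := by
    rw [hb, ← Finset.card_univ]; exact Finset.card_filter_le _ _
  have h2 : (((Fintype.card (Equiv.Perm (Fin n)) - a) * Fintype.card Pt * (2 * c) : ℕ) : ℝ) ≤
      (((Fintype.card Pt - b) * Fintype.card (Equiv.Perm (Fin n)) * (2 * c) +
        Fintype.card Pt * Fintype.card (Equiv.Perm (Fin n)) : ℕ) : ℝ) := by exact_mod_cast h1
  push_cast [Nat.cast_sub ha1, Nat.cast_sub hb1] at h2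
  rw [div_add' _ _ _ hN.ne', div_le_div_iff₀ hP hN]
  have h3 : (b : ℝ) * Fintype.card (Equiv.Perm (Fin n)) * (2 * c) ≤
      ((a : ℝ) + 1 / (2 * c) * Fintype.card (Equiv.Perm (Fin n))) * Fintype.card Pt * (2 * c) := by
    have e3 : ((a : ℝ) + 1 / (2 * c) * Fintype.card (Equiv.Perm (Fin n))) * Fintype.card Pt *
        (2 * c) = (a : ℝ) * Fintype.card Pt * (2 * c) +
          Fintype.card Pt * Fintype.card (Equiv.Perm (Fin n)) := by
      field_simp
    rw [e3]
    linarith
  exact le_of_mul_le_mul_right h3 (by positivity)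

end Pool.Agent.N625.LP
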