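import Pool.Agent.N625.LP.Hard

/-!
# Linear feasibility is hard on average for real programs with few non-monotone steps: programs
-/

set_option autoImplicit false

namespace Pool.Agent.N625.LP

open Finset Pool.Agent.H560R2 Matrix

/-- Real straight-line programs with `m` inputs. There are `s` steps; step `i` has the `w i` operands
`a i j`, each an input (`Sum.inl`) or the number computed by an earlier step (`Sum.inr`), and it
computes the function `op i` of them; `val b i` is the number computed by step `i` on the input `b`.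
The steps outside `T` are nondecreasing functions of at most two operands. The result of a step `i` in
`T` depends in an arbitrary way on the answers to the tests whether its `j`-th operand is at least
`θ i j`. The program accepts if the result of step `out` is at least `τ`. -/
structure Program (m : ℕ) where
  s : ℕ
  T : Finset (Fin s)
  w : Fin s → ℕ
  a : (i : Fin s) → Fin (w i) → Fin m ⊕ Fin s
  op : (i : Fin s) → (Fin (w i) → ℝ) → ℝ
  θ : (i : Fin s) → Fin (w i) → ℝ
  val : (Fin m → ℝ) → Fin s → ℝ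
  out : Fin s
  τ : ℝ
  earlier : ∀ i j k, a i j = Sum.inr k → k < i
  mono : ∀ i ∉ T, w i ≤ 2 ∧ Monotone (op i)
  test : ∀ i ∈ T, ∀ z z' : Fin (w i) → ℝ, (∀ j, θ i j ≤ z j ↔ θ i j ≤ z' j) → op i z = op i z'
  spec : ∀ b i, val b i = op i (fun j => Sum.elim b (val b) (a i j))

/-- the program accepts the input -/
def Program.Accepts {m : ℕ} (P : Program m) (b : Fin m → ℝ) : Prop := P.τ ≤ P.val b P.out

/-- the number of steps plus the number of operands of the steps in `T` -/
def Program.size {m : ℕ} (P : Program m) : ℕ := P.s + ∑ i ∈ P.T, P.w i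

/-- the bound for the number of joint outcomes of the tests along a chain of inputs -/
def Program.outcomes {m : ℕ} (P : Program m) : ℕ := ∏ i ∈ P.T, (P.w i + 1)

/-- all entries are `-1`, `0` or `1` -/
def Small {ι : Type} (b : ι → ℝ) : Prop := ∀ i, b i = -1 ∨ b i = 0 ∨ b i = 1

section

variable {M n m : ℕ}

/-- the system of the inputs of the chain is solvable -/
lemma feas_no (sn : Equiv.Perm (Fin n) → Finset (Fin n × Fin n)) (hsn : sn = off)
    (l : Fin M → Equiv.Perm (Fin n)) (i : ℕ) :
    ∃ y : Fin M × (Fin n × Fin n) → ℝ, ∀ r,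
      rhs (Es some (stS sn l i)) r ≤ ∑ j, Mtx M n r j * y j := by
  classical
  rw [feas_iff]
  intro J
  have e1 : {e : Fin n × Fin n | Es some (stS sn l i) (J, e) = true} = stS sn l i J := by
    ext e
    simp [Es]
  rw [e1]
  unfold stS
  split_ifs
  · refine BF_perm (l J) _ fun e he => ?_
    rw [hsn, coe_off] at he
    exact he
  · exact BF_perm 1 _ fun e he => absurd he (Set.notMem_empty e)

/-- the system with a block without perfect matching is not solvable -/
lemma feas_yes {W : Finset (Fin n ⊕ Fin n)} (hW : W.card < n) (y : Fin M → Set (Fin n × Fin n))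
    (J : Fin M) :
    ¬ ∃ z : Fin M × (Fin n × Fin n) → ℝ, ∀ r,
      rhs (Es some (Function.update y J (cov W : Set (Fin n × Fin n)))) r ≤
        ∑ j, Mtx M n r j * z j := by
  classical
  rw [feas_iff]
  intro h
  have h1 := h J
  have e1 : {e : Fin n × Fin n |
      Es some (Function.update y J (cov W : Set (Fin n × Fin n))) (J, e) = true} =
      {e | Sum.inl e.1 ∉ W ∧ Sum.inr e.2 ∉ W} := by
    ext e
    simp [Es, cov]
  rw [e1] at h1
  exact BF_cover W hW h1

open Classical in
/-- A program for the system, on the distributions. -/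
theorem prog_avg {Pt : Type} [Fintype Pt] [Nonempty Pt] {S : ℕ} {ε : ℝ}
    {sp : Pt → Finset (Fin n × Fin n)}
    (hn : 0 < n) (hA : BlockHard (N := Equiv.Perm (Fin n)) S ε sp off) (hM : 0 < M)
    (e : Fin m ≃ Rw M n) (P : Program m) (hP : P.size ≤ S) :
    ((univ.filter (fun l : Fin M × (Fin M → Equiv.Perm (Fin n)) × Pt =>
        P.Accepts (fun i => rhs (yesD some sp off l) (e i)))).card : ℝ) /
        Fintype.card (Fin M × (Fin M → Equiv.Perm (Fin n)) × Pt) ≤
      ((univ.filter (fun l : Fin M × (Fin M → Equiv.Perm (Fin n)) × Pt =>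
        P.Accepts (fun i => rhs (noD some off l) (e i)))).card : ℝ) /
        Fintype.card (Fin M × (Fin M → Equiv.Perm (Fin n)) × Pt) +
      (P.outcomes : ℝ) / M + ε := by
  -- the input bit of a row
  let co : Rw M n → Option (Fin M × (Fin n × Fin n)) :=
    Sum.elim (fun _ => none) (Sum.elim (fun q => some q) (fun _ => none))
  let ct : Rw M n → ℝ := Sum.elim (fun _ => 0) (Sum.elim (fun _ => 0)
    (Sum.elim (fun _ => 1) (fun _ => -1)))
  let e0 : Fin M × (Fin n × Fin n) := (⟨0, hM⟩, (⟨0, hn⟩, ⟨0, hn⟩))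
  have hrhs : ∀ (x : Fin M × (Fin n × Fin n) → Bool) r,
      rhs x r = (co r).elim (ct r) (fun q => bit x q - 1) := by
    intro x r
    rcases r with q | q | q | q <;> rfl
  let cv : (i : Fin P.s) → (j : Fin (P.w i)) → ℝ → ℝ := fun i j t =>
    Sum.elim (fun r => (co (e r)).elim (ct (e r)) (fun _ => t - 1)) (fun _ => t) (P.a i j)
  have hcv : ∀ i j (z z' : ℝ), z ≤ z' → cv i j z ≤ cv i j z' := by
    intro i j z z' hz
    simp only [cv]
    rcases P.a i j with r | k
    · simp only [Sum.elim_inl]
      rcases co (e r) with _ | q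
      · exact le_rfl
      · simp only [Option.elim_some]
        linarith
    · exact hz
  have key := avg_chain (I := Fin M × (Fin n × Fin n)) (V := Fin n × Fin n)
    (P := Pt) (N := Equiv.Perm (Fin n)) (s := P.s) (T := P.T) (w := P.w)
    (a := fun i j => Sum.elim (fun r => Sum.inl ((co (e r)).getD e0)) (fun k => Sum.inr k) (P.a i j))
    (op := fun i z => P.op i (fun j => cv i j (z j)))
    (θ := fun i j => Sum.elim (fun r => P.θ i j + 1) (fun _ => P.θ i j) (P.a i j))
    (val := fun x => P.val (fun i => rhs x (e i))) hA hM some ?_ ?_ ?_ ?_ hP P.out P.τ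
  · exact key
  · intro i j k hk
    rcases h : P.a i j with r | k'
    · rw [h] at hk
      simp at hk
    · rw [h] at hk
      simp only [Sum.elim_inr, Sum.inr.injEq] at hk
      rw [← hk]
      exact P.earlier i j k' h
  · intro i hi
    exact ⟨(P.mono i hi).1, fun z z' hz => (P.mono i hi).2 (fun j => hcv i j _ _ (hz j))⟩
  · intro i hi z z' hz
    apply P.test i hi
    intro j
    have := hz j
    simp only [cv]
    rcases hm : P.a i j with r | k
    · simp only [hm, Sum.elim_inl] at this ⊢
      rcases co (e r) with _ | q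
      · exact Iff.rfl
      · simp only [Option.elim_some]
        constructor
        · intro h
          have := this.mp (by linarith)
          linarith
        · intro h
          have := this.mpr (by linarith)
          linarith
    · simp only [hm, Sum.elim_inr] at this ⊢
      exact this
  · intro x i
    rw [P.spec]
    congr 1
    funext j
    simp only [cv]
    rcases P.a i j with r | k
    · simp only [Sum.elim_inl]
      rw [hrhs]
      rcases co (e r) with _ | q
      · rfl
      · rfl
    · rfl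

end

open Classical in
/-- **Linear feasibility is hard on average.** -/
theorem avg (d c M : ℕ) (hd : 1 ≤ d) (hc : 1 ≤ c) (hM : 1 ≤ M) :
    ∃ (m N : ℕ) (A : Matrix (Fin m) (Fin N) ℝ), N = M * (2 ^ 120 * (c * d) ^ 9) ^ 2 ∧ m ≤ 6 * N ∧
      (∀ i j, A i j = -1 ∨ A i j = 0 ∨ A i j = 1) ∧
      ∃ (Λ : Type) (_ : Fintype Λ) (_ : Nonempty Λ) (yes no : Λ → Fin m → ℝ),
        (∀ l, Small (yes l) ∧ ¬ ∃ x : Fin N → ℝ, yes l ≤ A *ᵥ x) ∧
        (∀ l, Small (no l) ∧ ∃ x : Fin N → ℝ, no l ≤ A *ᵥ x) ∧
        ∀ P : Program m, 8 * c * P.size ≤ 2 ^ d →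
          ((univ.filter (fun l : Λ => P.Accepts (yes l))).card : ℝ) / Fintype.card Λ ≤
            ((univ.filter (fun l : Λ => P.Accepts (no l))).card : ℝ) / Fintype.card Λ +
              P.outcomes / M + 1 / (2 * c) := by
  have hcd1 : 1 ≤ c * d := Nat.mul_pos hc hd
  obtain ⟨lam, h1, h2⟩ := exists_size (c * d) hcd1
  set n := 2 ^ 120 * (c * d) ^ 9 with hn
  have hn1 : 1 ≤ n := by rw [hn]; exact Nat.one_le_iff_ne_zero.2 (by positivity)
  have hbig : 2 ^ 59 * (lam + 1) ^ 8 * d ^ 8 * c ≤ n := by
    refine le_trans ?_ h2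
    calc 2 ^ 59 * (lam + 1) ^ 8 * d ^ 8 * c ≤ 2 ^ 59 * (lam + 1) ^ 8 * d ^ 8 * c ^ 8 :=
          Nat.mul_le_mul_left _ (Nat.le_self_pow (by norm_num) c)
      _ = _ := by ring
  obtain ⟨Pt, i1, i2, W, hW, H⟩ := block (n := n) d lam c hd hc h1 hbig
  haveI : Nonempty (Fin M) := ⟨⟨0, hM⟩⟩
  let e : Fin (Fintype.card (Rw M n)) ≃ Rw M n := (Fintype.equivFin (Rw M n)).symm
  have hcard : Fintype.card (Fin M × (Fin n × Fin n)) = M * n ^ 2 := by
    simp only [Fintype.card_prod, Fintype.card_fin]
    ring
  let f : Fin (M * n ^ 2) ≃ (Fin M × (Fin n × Fin n)) :=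
    (Fintype.equivFinOfCardEq hcard).symm
  have hfe : ∀ b : Rw M n → ℝ, (∃ x : Fin (M * n ^ 2) → ℝ,
      (fun i => b (e i)) ≤ (Matrix.of fun i j => Mtx M n (e i) (f j)) *ᵥ x) ↔
      ∃ y : Fin M × (Fin n × Fin n) → ℝ, ∀ r, b r ≤ ∑ j, Mtx M n r j * y j := by
    intro b
    constructor
    · rintro ⟨x, hx⟩
      refine ⟨fun p => x (f.symm p), fun r => ?_⟩
      have h3 := hx (e.symm r)
      simp only [Equiv.apply_symm_apply] at h3
      refine h3.trans (le_of_eq ?_)
      show ∑ j, Mtx M n (e (e.symm r)) (f j) * x j = _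
      rw [Equiv.apply_symm_apply, ← Equiv.sum_comp f]
      simp
    · rintro ⟨y, hy⟩
      refine ⟨fun j => y (f j), fun i => ?_⟩
      refine (hy (e i)).trans (le_of_eq ?_)
      show _ = ∑ j, Mtx M n (e i) (f j) * y (f j)
      rw [← Equiv.sum_comp f]
  refine ⟨Fintype.card (Rw M n), M * n ^ 2, Matrix.of fun i j => Mtx M n (e i) (f j), rfl, ?_,
    fun i j => Mtx_values M n _ _, Fin M × (Fin M → Equiv.Perm (Fin n)) × Pt, inferInstance,
    inferInstance, fun l i => rhs (yesD some (fun p => cov (W p)) off l) (e i),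
    fun l i => rhs (noD some off l) (e i), ?_, ?_, ?_⟩
  · rw [card_Rw]
    have : M * n ≤ M * n ^ 2 := Nat.mul_le_mul_left _ (by nlinarith)
    have e1 : M * (n * n) = M * n ^ 2 := by ring
    rw [e1]
    omega
  · intro l
    refine ⟨fun i => rhs_values _ _, ?_⟩
    intro h
    exact feas_yes (hW l.2.2) _ _ ((hfe _).1 h)
  · intro l
    refine ⟨fun i => rhs_values _ _, ?_⟩
    exact (hfe _).2 (feas_no off rfl _ _)
  · intro P hP
    exact prog_avg hn1 (H P.size hP) hM e P le_rfl

open Classical in
/-- **Randomized programs.** -/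
theorem rand {m : ℕ} (Q : (Fin m → ℝ) → Prop) {Λ : Type} [Fintype Λ] [Nonempty Λ]
    (yes no : Λ → Fin m → ℝ) (hyes : ∀ l, Small (yes l) ∧ ¬ Q (yes l))
    (hno : ∀ l, Small (no l) ∧ Q (no l)) {R : Type} [Fintype R] [Nonempty R] (C : R → Program m)
    {q : ℝ} (hA : ∀ r, ((univ.filter (fun l : Λ => (C r).Accepts (yes l))).card : ℝ) /
        Fintype.card Λ ≤
      ((univ.filter (fun l : Λ => (C r).Accepts (no l))).card : ℝ) / Fintype.card Λ + q) :
    ∃ b : Fin m → ℝ, Small b ∧ (1 - q) / 2 ≤
      ((univ.filter (fun r : R => ¬ ((C r).Accepts b ↔ ¬ Q b))).card : ℝ) / Fintype.card R := by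
  by_contra hcon0
  have hcon : ∀ b : Fin m → ℝ, Small b →
      ((univ.filter (fun r : R => ¬ ((C r).Accepts b ↔ ¬ Q b))).card : ℝ) / Fintype.card R <
        (1 - q) / 2 := by
    intro S hS
    by_contra h
    exact hcon0 ⟨S, hS, not_lt.mp h⟩
  have hL0 : (0 : ℝ) < Fintype.card Λ := by exact_mod_cast Fintype.card_pos
  have hR0 : (0 : ℝ) < Fintype.card R := by exact_mod_cast Fintype.card_pos
  -- few errors on each input
  let er : (Fin m → ℝ) → R → ℝ := fun S r => if ¬ ((C r).Accepts S ↔ ¬ Q S) then 1 else 0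
  have h1 : ∀ S : Fin m → ℝ, Small S → ∑ r, er S r < (1 - q) / 2 * Fintype.card R := by
    intro S hS
    have h2 := hcon S hS
    rw [div_lt_iff₀ hR0, Finset.card_filter] at h2
    push_cast at h2
    exact h2
  have h3 : ∑ l : Λ, ∑ r, er (yes l) r < Fintype.card Λ * ((1 - q) / 2 * Fintype.card R) := by
    calc _ < ∑ _l : Λ, (1 - q) / 2 * Fintype.card R :=
          Finset.sum_lt_sum_of_nonempty Finset.univ_nonempty (fun l _ => h1 _ (hyes l).1)
      _ = _ := by rw [Finset.sum_const, Finset.card_univ, nsmul_eq_mul]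
  have h4 : ∑ l : Λ, ∑ r, er (no l) r < Fintype.card Λ * ((1 - q) / 2 * Fintype.card R) := by
    calc _ < ∑ _l : Λ, (1 - q) / 2 * Fintype.card R :=
          Finset.sum_lt_sum_of_nonempty Finset.univ_nonempty (fun l _ => h1 _ (hno l).1)
      _ = _ := by rw [Finset.sum_const, Finset.card_univ, nsmul_eq_mul]
  -- many errors for each program
  have h5 : ∀ r, (1 - q) * Fintype.card Λ ≤ ∑ l : Λ, er (yes l) r + ∑ l : Λ, er (no l) r := by
    intro r
    have h6 := hA r
    rw [div_add' _ _ _ hL0.ne', div_le_div_iff_of_pos_right hL0, Finset.card_filter,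
      Finset.card_filter] at h6
    push_cast at h6
    have h7 : ∀ l : Λ, er (yes l) r = 1 - (if (C r).Accepts (yes l) then (1 : ℝ) else 0) := by
      intro l
      have : ¬ Q (yes l) := (hyes l).2
      simp only [er, this, not_false_eq_true, iff_true]
      by_cases hacc : (C r).Accepts (yes l)
      · simp [hacc]
      · simp [hacc]
    have h8 : ∀ l : Λ, er (no l) r = (if (C r).Accepts (no l) then (1 : ℝ) else 0) := by
      intro l
      have : Q (no l) := (hno l).2
      simp only [er, this, not_true_eq_false, iff_false, not_not]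
    simp only [h7, h8, Finset.sum_sub_distrib, Finset.sum_const, Finset.card_univ, nsmul_eq_mul,
      mul_one]
    linarith
  have h9 : Fintype.card R * ((1 - q) * Fintype.card Λ) ≤
      ∑ l : Λ, ∑ r, er (yes l) r + ∑ l : Λ, ∑ r, er (no l) r := by
    rw [Finset.sum_comm, Finset.sum_comm (s := (univ : Finset Λ)) (t := (univ : Finset R)),
      ← Finset.sum_add_distrib]
    calc (Fintype.card R : ℝ) * ((1 - q) * Fintype.card Λ) = ∑ _r : R, (1 - q) * Fintype.card Λ := by
          rw [Finset.sum_const, Finset.card_univ, nsmul_eq_mul]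
      _ ≤ _ := Finset.sum_le_sum (fun r _ => h5 r)
  have h10 : (Fintype.card R : ℝ) * ((1 - q) * Fintype.card Λ) =
      Fintype.card Λ * ((1 - q) / 2 * Fintype.card R) +
      Fintype.card Λ * ((1 - q) / 2 * Fintype.card R) := by ring
  linarith

end Pool.Agent.N625.LP
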